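import Pool.Agent.Helper5.WD.Stmts

/-! # Row XCDE: all components decrease -/

set_option autoImplicit false

open Finset Pool.Agent.Helper8.UN Pool.Agent.Helper5.FV

namespace Pool.Agent.Helper5.WD

/-- the final inequality -/
theorem xcde_fin {a b c d e f M M' E1 : ℝ} (hb : 0 ≤ b) (he : 0 ≤ e) (hd : 0 < d) (hf : 0 < f)
    (hE1 : E1 ≤ 1004 / 1000) (h1 : a * d ≤ c * b) (h2 : c * f ≤ E1 * (e * d))
    (h3 : 106 / 100 * e ≤ M * f) (hM : M ≤ 1004 / 1000 * M') (hM' : 0 ≤ M') :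
    105 / 100 * a ≤ M' * b := by
  have hdf : 0 < d * f := mul_pos hd hf
  have s1 : a * d * f ≤ c * b * f := mul_le_mul_of_nonneg_right h1 hf.le
  have s2 : c * f * b ≤ E1 * (e * d) * b := mul_le_mul_of_nonneg_right h2 hb
  have hed : 0 ≤ e * d := mul_nonneg he hd.le
  have s3 : E1 * (e * d) * b ≤ 1004 / 1000 * (e * d) * b :=
    mul_le_mul_of_nonneg_right (mul_le_mul_of_nonneg_right hE1 hed) hb
  have s4 : M * f ≤ 1004 / 1000 * M' * f := mul_le_mul_of_nonneg_right hM hf.le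
  have hMf : 0 ≤ M' * f := mul_nonneg hM' hf.le
  have s5 : 105 / 100 * (1004 / 1000) * e ≤ M' * f := by nlinarith
  have s6 : 105 / 100 * (1004 / 1000) * e * (d * b) ≤ M' * f * (d * b) :=
    mul_le_mul_of_nonneg_right s5 (mul_nonneg hd.le hb)
  have key : 105 / 100 * a * (d * f) ≤ M' * b * (d * f) := by nlinarith
  exact le_of_mul_le_mul_right key hdf

/-- `log n` and `sqrt n` -/
theorem xcde_log {n : ℕ} (hn : 40000 ≤ n) :
    1 ≤ Real.log n ∧ Real.log n ≤ 2 * Real.sqrt n ∧ 200 ≤ Real.sqrt n ∧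
      Real.sqrt n * Real.sqrt n = n := by
  have hnR : (40000 : ℝ) ≤ n := by exact_mod_cast hn
  have h0 : (0 : ℝ) ≤ n := by linarith
  have hs : Real.sqrt n * Real.sqrt n = n := Real.mul_self_sqrt h0
  have h200 : 200 ≤ Real.sqrt n := by
    apply Real.le_sqrt_of_sq_le
    linarith
  refine ⟨?_, ?_, h200, hs⟩
  · rw [Real.le_log_iff_exp_le (by linarith)]
    have := Real.exp_one_lt_d9
    linarith
  · have h1 : Real.log (Real.sqrt n) ≤ Real.sqrt n - 1 :=
      Real.log_le_sub_one_of_pos (by linarith)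
    rw [Real.log_sqrt h0] at h1
    linarith

/-- the error in the exponent -/
theorem xcde_exp {s L j m : ℝ} (hs : 200 ≤ s) (hL : 1 ≤ L) (hLs : L ≤ 2 * s)
    (hj : j ≤ 1 / 100000 * (s / L)) (hm : 68 / 100 * (s * s / L) ≤ m) :
    Real.exp (2 * j * (s * s) / m ^ 2) ≤ 1004 / 1000 := by
  have hs0 : 0 < s := by linarith
  have hL0 : 0 < L := by linarith
  have hx0 : 0 < s * s / L := by positivity
  have hm0 : 0 < m := by linarith
  have hm2 : (68 / 100 * (s * s / L)) ^ 2 ≤ m ^ 2 :=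
    pow_le_pow_left₀ (by positivity) hm 2
  have hlow : (68 / 100 * (s * s / L)) ^ 2 * (1 / 1000) ≥
      2 * (1 / 100000 * (s / L)) * (s * s) := by
    have e1 : (68 / 100 * (s * s / L)) ^ 2 * (1 / 1000) -
      2 * (1 / 100000 * (s / L)) * (s * s) =
        (s ^ 3 / L ^ 2) * (4624 / 10000000 * s - 2 / 100000 * L) := by
      field_simp
      ring
    have e2 : 0 ≤ (s ^ 3 / L ^ 2) * (4624 / 10000000 * s - 2 / 100000 * L) := by
      apply mul_nonneg (by positivity)
      linarith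
    linarith
  have ht : 2 * j * (s * s) / m ^ 2 ≤ 1 / 1000 := by
    rw [div_le_iff₀ (by positivity)]
    have e3 : 2 * j * (s * s) ≤ 2 * (1 / 100000 * (s / L)) * (s * s) := by
      apply mul_le_mul_of_nonneg_right _ (by positivity)
      linarith
    linarith
  have hexp : Real.exp (2 * j * (s * s) / m ^ 2) ≤ Real.exp (1 / 1000) := Real.exp_le_exp.2 ht
  have h5 : Real.exp (1 / 1000) ≤ 1004 / 1000 := by
    have h6 := Real.add_one_le_exp (-(1 / 1000 : ℝ))
    rw [Real.exp_neg] at h6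
    have hp := Real.exp_pos (1 / 1000 : ℝ)
    have h7 : (999 / 1000 : ℝ) * Real.exp (1 / 1000) ≤ 1 := by
      have h8 : (999 / 1000 : ℝ) ≤ (Real.exp (1 / 1000))⁻¹ := by linarith
      calc (999 / 1000 : ℝ) * Real.exp (1 / 1000) ≤ (Real.exp (1 / 1000))⁻¹ * Real.exp (1 / 1000) :=
            mul_le_mul_of_nonneg_right h8 hp.le
        _ = 1 := inv_mul_cancel₀ hp.ne'
    linarith
  linarith

theorem st_XCDE (h1 : ST_SUB) (h2 : ST_XREG) (h3 : ST_QQC) (h4 : ST_GRTI) (h5 : ST_GSHF)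
    (h6 : ST_GLMU) (h7 : ST_GDCW) (h8 : ST_GFAW) (h9 : ST_GSTW) : ST_XCDE := by
  obtain ⟨N4, h4⟩ := h4
  obtain ⟨N5, h5⟩ := h5
  obtain ⟨N6, h6⟩ := h6
  obtain ⟨N7, h7⟩ := h7
  obtain ⟨N8, h8⟩ := h8
  obtain ⟨N9, h9⟩ := h9
  refine ⟨40000 + N4 + N5 + N6 + N7 + N8 + N9, ?_⟩
  intro n hn D0 r m E W0 Q hR hQ hm
  have hRU := h2 n D0 r E W0 hR
  obtain ⟨hQc, hQW⟩ := h3 n E W0 Q hQ
  have hw0 := hR.w0
  obtain ⟨hL1, hLs, hs200, hss⟩ := xcde_log (n := n) (by omega)
  -- names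
  obtain ⟨EU, hEU⟩ : ∃ EU, EU = E.filter (fun e => e ⊆ univ \ W0) := ⟨_, rfl⟩
  rw [← hEU] at hRU
  obtain ⟨W, hW⟩ : ∃ W, W = univ \ un Q := ⟨_, rfl⟩
  obtain ⟨U, hU⟩ : ∃ U, U = univ \ W0 := ⟨_, rfl⟩
  have hS : ∀ (W' : Finset (Fin n)) (k : ℕ), W' ⊆ U →
      PP EU W' k = PP E W' k ∧ AA EU W' k = AA E W' k := by
    intro W' k hW'
    rw [hEU, ← hU]
    exact h1 n k E U W' hW'
  rw [← hW, ← hU] at hQW
  rw [← hW]
  rw [← hU] at hm
  have hUc : (U.card : ℝ) = n - W0.card := by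
    rw [hU, Finset.card_sdiff_of_subset (Finset.subset_univ _), Finset.card_univ, Fintype.card_fin]
    rw [Nat.cast_sub]
    have := Finset.card_le_univ W0
    rwa [Fintype.card_fin] at this
  have hWU : W.card ≤ U.card := Finset.card_le_card hQW
  have hposs : 99 / 100 * (n : ℝ) ≤ U.card → ∀ k : ℕ, 665 / 1000 * ((n : ℝ) / Real.log n) ≤ k →
      (k : ℝ) ≤ 122 / 100 * (n / Real.log n) → 0 < PP EU U k := by
    intro hU9 k hk hk2
    exact (h9 n (by omega) D0 r k EU U hRU hU9 hk hk2).2.1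
  obtain ⟨j, hj⟩ : ∃ j, j = Q.card := ⟨_, rfl⟩
  rw [← hj] at hQc ⊢
  obtain ⟨L, hL⟩ : ∃ L, L = Real.log n := ⟨_, rfl⟩
  obtain ⟨s, hs⟩ : ∃ s, s = Real.sqrt n := ⟨_, rfl⟩
  rw [← hL, ← hs] at hw0
  rw [← hL] at hL1 hLs
  rw [← hs] at hLs hs200 hss
  have hs0 : 0 < s := by linarith
  have hL0 : 0 < L := by linarith
  have hjW : (j : ℝ) ≤ W0.card := by exact_mod_cast hQc
  have hjs : (j : ℝ) ≤ 1 / 100000 * (s / L) := hjW.trans hw0
  have hn0 : (0 : ℝ) ≤ n := Nat.cast_nonneg n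
  have hsn : s ≤ n := by nlinarith
  have hsL : s / L ≤ n / L := by
    apply div_le_div_of_nonneg_right hsn hL0.le
  have hsn2 : 200 * s ≤ n := by nlinarith
  have hsLs : s / L ≤ s := div_le_self hs0.le hL1
  have hx100 : 100 ≤ (n : ℝ) / L := by
    rw [le_div_iff₀ hL0]
    nlinarith
  obtain ⟨x, hx⟩ : ∃ x, x = (n : ℝ) / L := ⟨_, rfl⟩
  have hx' : (n : ℝ) / Real.log n = x := by rw [hx, hL]
  rw [← hx] at hsL hx100
  rw [hx'] at hm
  have hjx : (j : ℝ) ≤ 1 / 100000 * x := by linarith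
  have hmx : 68 / 100 * x ≤ m := by
    rcases hm with hm | hm
    · linarith
    · exact hm.1
  have hjm : j ≤ m := by
    have : (j : ℝ) ≤ m := by linarith
    exact_mod_cast this
  have hm'R : ((m - j : ℕ) : ℝ) = m - j := Nat.cast_sub hjm
  have hfin : AA EU W (m - j + 1) ≤ (m - j + 1) * AA EU W (m - j) →
      AA E W (m - j + 1) ≤ (m - j + 1) * AA E W (m - j) := by
    intro h
    rw [(hS W (m - j + 1) hQW).2, (hS W (m - j) hQW).2] at h
    exact h
  apply hfin
  rcases hm with hm | ⟨hm1, hm2, hm3⟩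
  · apply h8 n (by omega) D0 r (m - j) EU W hRU
    left
    rw [hx', hm'R]
    linarith
  · rw [← (hS U (m + 1) (Finset.Subset.refl _)).1, ← (hS U m (Finset.Subset.refl _)).1] at hm3
    have he0 : (0 : ℝ) ≤ PP EU U (m + 1) := Nat.cast_nonneg _
    have hU99 : 99999 / 100000 * (n : ℝ) ≤ U.card := by
      rw [hUc]
      linarith
    have hm98 : 98 / 100 * x ≤ m := by
      have := h6 n (by omega) D0 r m EU U hRU hU99 (by rw [hx']; linarith) (by linarith)
      rwa [hx'] at this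
    by_cases hWc : (W.card : ℝ) ≤ 951 / 1000 * n
    · apply h8 n (by omega) D0 r (m - j) EU W hRU
      right
      refine ⟨?_, hWc⟩
      rw [hx', hm'R]
      linarith
    · rw [not_le] at hWc
      apply h7 n (by omega) D0 r (m - j) EU W hRU
      · linarith
      · rw [hx', hm'R]
        linarith
      · rw [hx', hm'R]
        have : (0 : ℝ) ≤ j := Nat.cast_nonneg j
        linarith
      · have hA := (h4 n (by omega) D0 r (m - j + 1) EU W U hRU
          (by rw [hx']; push_cast; rw [hm'R]; linarith) hQW).1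
        have hB := (h5 n (by omega) D0 r (m + 1) j EU U hRU (by linarith)
          (by rw [hx']; push_cast; linarith) (by rw [hx']; push_cast; linarith)
          (by rw [hx']; linarith)).2
        have e1 : m + 1 - j = m - j + 1 := by omega
        have e2 : m + 1 - j - 1 = m - j := by omega
        have e3 : m + 1 - 1 = m := by omega
        have e4 : m - j + 1 - 1 = m - j := by omega
        rw [e2, e3, e1] at hB
        rw [e4] at hA
        have hexp : Real.exp (2 * (j : ℝ) * n / ((m + 1 : ℕ) : ℝ) ^ 2) ≤ 1004 / 1000 := by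
          have := xcde_exp (s := s) (L := L) (j := (j : ℝ)) (m := ((m + 1 : ℕ) : ℝ)) hs200 hL1 hLs
            hjs (by rw [hss, ← hx]; push_cast; linarith)
          rwa [hss] at this
        refine xcde_fin (a := (PP EU W (m - j + 1) : ℝ)) (b := (PP EU W (m - j) : ℝ))
          (c := (PP EU U (m - j + 1) : ℝ)) (d := (PP EU U (m - j) : ℝ))
          (e := (PP EU U (m + 1) : ℝ)) (f := (PP EU U m : ℝ)) (M := (m : ℝ) + 1)
          (Nat.cast_nonneg _) (Nat.cast_nonneg _) ?_ ?_ hexp hA hB hm3 ?_ ?_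
        · exact_mod_cast hposs (by linarith) (m - j) (by rw [hx', hm'R]; linarith)
            (by rw [hx', hm'R]; linarith [(Nat.cast_nonneg j : (0 : ℝ) ≤ j)])
        · exact_mod_cast hposs (by linarith) m (by rw [hx']; linarith) (by rw [hx']; linarith)
        · rw [hm'R]
          linarith
        · positivity

end Pool.Agent.Helper5.WD
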